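import Mathlib

/-!
# MP_b5e4d4_co: the number of labeled self-converse digraphs

`s p` is the number of self-converse digraphs on the points `Fin p`.  The group
`Γ p = Perm (Fin p) × ℤˣ` acts on the ordered pairs of distinct points, `(σ, 1)` by
`(u, v) ↦ (σ u, σ v)` and `(σ, -1)` by `(u, v) ↦ (σ v, σ u)`.  A subgroup is *odd* if it contains
some `(σ, -1)`.  The formula is a sum over the odd subgroups `H` with summand
`- μ(⊥, H) 2 ^ (number of orbits of H on the ordered pairs)`, where `μ` is the Möbius function of the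
poset of odd subgroups with a bottom element `⊥` adjoined.
-/

set_option autoImplicit false

open Finset

namespace Pool.Agent.Results.MP_b5e4d4_co.SubgroupFormula

/-- ordered pairs of distinct points -/
abbrev Arc (p : ℕ) : Type := {e : Fin p × Fin p // e.1 ≠ e.2}

/-- labeled digraphs of order `p` (no loops, no multiple arcs), given by their adjacency relation -/
def LDigraph (p : ℕ) : Type := {R : Fin p → Fin p → Prop // ∀ i, ¬ R i i}

/-- `D` is isomorphic to its converse -/
def LDigraph.SelfConverse {p : ℕ} (D : LDigraph p) : Prop :=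
  ∃ σ : Equiv.Perm (Fin p), ∀ u v, D.1 u v ↔ D.1 (σ v) (σ u)

/-- the number of labeled self-converse digraphs of order `p` -/
noncomputable def s (p : ℕ) : ℕ := Nat.card {D : LDigraph p // D.SelfConverse}

/-- permutations of the points together with a sign -/
abbrev Γ (p : ℕ) : Type := Equiv.Perm (Fin p) × ℤˣ

/-- `(σ, 1)` sends the pair `(u, v)` to `(σ u, σ v)` and `(σ, -1)` sends it to `(σ v, σ u)` -/
instance act (p : ℕ) : MulAction (Γ p) (Arc p) where
  smul g e := if g.2 = 1 then ⟨(g.1 e.1.1, g.1 e.1.2), fun h => e.2 (g.1.injective h)⟩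
    else ⟨(g.1 e.1.2, g.1 e.1.1), fun h => e.2 (g.1.injective h).symm⟩
  one_smul := by
    rintro ⟨e, he⟩
    rfl
  mul_smul := by
    rintro ⟨σ, a⟩ ⟨τ, b⟩ ⟨⟨u, v⟩, he⟩
    rcases Int.units_eq_one_or a with rfl | rfl <;> rcases Int.units_eq_one_or b with rfl | rfl <;>
      rfl

/-- the subgroups of `Γ p` that contain an element with sign `-1` -/
abbrev OddSub (p : ℕ) : Type :=
  {H : Subgroup (Γ p) // ∃ σ : Equiv.Perm (Fin p), (σ, (-1 : ℤˣ)) ∈ H}

noncomputable instance (p : ℕ) : Fintype (OddSub p) := Fintype.ofFinite _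

noncomputable instance (p : ℕ) : DecidableEq (OddSub p) := Classical.decEq _

noncomputable instance (p : ℕ) : LocallyFiniteOrder (WithBot (OddSub p)) := by
  classical
  exact Fintype.toLocallyFiniteOrder

/-- the number of orbits of `H` on the ordered pairs of distinct points -/
noncomputable def orb {p : ℕ} (H : OddSub p) : ℕ :=
  Nat.card (MulAction.orbitRel.Quotient H.1 (Arc p))

open Classical in
/-- a digraph as a two-colouring of the ordered pairs -/
noncomputable def eD (p : ℕ) : LDigraph p ≃ (Arc p → Bool) where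
  toFun := fun D e => decide (D.1 e.1.1 e.1.2)
  invFun := fun c => ⟨fun i j => ∃ h : i ≠ j, c ⟨(i, j), h⟩ = true, fun i h => h.1 rfl⟩
  left_inv := by
    intro D
    apply Subtype.ext
    funext i j
    apply propext
    constructor
    · rintro ⟨h, hc⟩
      simpa using hc
    · intro h
      exact ⟨fun hij => D.2 i (by rw [← hij] at h; exact h), by simpa using h⟩
  right_inv := by
    intro c
    funext e
    obtain ⟨⟨a, b⟩, he⟩ := e
    rcases hc : c ⟨(a, b), he⟩ with _ | _
    · simp [hc]
    · have : a ≠ b := he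
      simp [hc, this]

/-- the stabiliser of a colouring -/
def stab {p : ℕ} (c : Arc p → Bool) : Subgroup (Γ p) where
  carrier := {g | ∀ e, c (g • e) = c e}
  mul_mem' := by
    intro a b ha hb e
    rw [mul_smul, ha, hb]
  one_mem' := by intro e; rw [one_smul]
  inv_mem' := by
    intro a ha e
    have := ha (a⁻¹ • e)
    rw [smul_inv_smul] at this
    exact this.symm

theorem mem_stab {p : ℕ} (c : Arc p → Bool) (g : Γ p) : g ∈ stab c ↔ ∀ e, c (g • e) = c e :=
  Iff.rfl

theorem selfConverse_iff {p : ℕ} (D : LDigraph p) :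
    D.SelfConverse ↔ ∃ σ : Equiv.Perm (Fin p), (σ, (-1 : ℤˣ)) ∈ stab (eD p D) := by
  classical
  unfold LDigraph.SelfConverse
  refine exists_congr fun σ => ?_
  rw [mem_stab]
  constructor
  · rintro h ⟨⟨a, b⟩, hab⟩
    change decide (D.1 (σ b) (σ a)) = decide (D.1 a b)
    simp only [decide_eq_decide]
    exact (h a b).symm
  · intro h u v
    by_cases huv : u = v
    · subst huv
      exact ⟨fun h' => absurd h' (D.2 u), fun h' => absurd h' (D.2 _)⟩
    · have := h ⟨(u, v), huv⟩
      change decide (D.1 (σ v) (σ u)) = decide (D.1 u v) at this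
      simp only [decide_eq_decide] at this
      exact this.symm

/-- the colourings fixed by `H` are the colourings of the orbits -/
theorem card_fixed {p : ℕ} (H : OddSub p) :
    Nat.card {c : Arc p → Bool // H.1 ≤ stab c} = 2 ^ orb H := by
  classical
  have e : {c : Arc p → Bool // H.1 ≤ stab c} ≃ (MulAction.orbitRel.Quotient H.1 (Arc p) → Bool) :=
    { toFun := fun c => Quotient.lift c.1 (by
        rintro x y hxy
        obtain ⟨g, rfl⟩ := MulAction.orbitRel_apply.1 hxy
        exact c.2 g.2 y)
      invFun := fun f => ⟨fun e => f (Quotient.mk _ e), by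
        intro g hg e
        change f (Quotient.mk _ (g • e)) = f (Quotient.mk _ e)
        congr 1
        apply Quotient.sound
        exact MulAction.orbitRel_apply.2 ⟨⟨g, hg⟩, rfl⟩⟩
      left_inv := by
        intro c
        apply Subtype.ext
        funext e
        rfl
      right_inv := by
        intro f
        funext q
        induction q using Quotient.ind
        rfl }
  rw [Nat.card_congr e, Nat.card_fun]
  simp [orb]

open Classical in
theorem sum_mu {p : ℕ} (A : OddSub p) :
    ∑ H : OddSub p, (if H ≤ A then IncidenceAlgebra.mu ℤ (⊥ : WithBot (OddSub p)) H else 0) = -1 := by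
  have h := IncidenceAlgebra.sum_Icc_mu_right (𝕜 := ℤ) (⊥ : WithBot (OddSub p)) (A : WithBot (OddSub p))
  rw [if_neg (by exact WithBot.bot_ne_coe)] at h
  have h2 : Icc (⊥ : WithBot (OddSub p)) (A : WithBot (OddSub p)) =
      insert ⊥ ((univ.filter (fun H : OddSub p => H ≤ A)).map Function.Embedding.coeWithBot) := by
    ext x
    simp only [mem_Icc, bot_le, true_and, mem_insert, Finset.mem_map, mem_filter, mem_univ,
      Function.Embedding.coeWithBot_apply]
    induction x using WithBot.recBotCoe with
    | bot => simp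
    | coe x => simp [WithBot.coe_le_coe]
  rw [h2, sum_insert (by simp), IncidenceAlgebra.mu_self, sum_map] at h
  rw [← sum_filter]
  simp only [Function.Embedding.coeWithBot_apply] at h
  linarith

/-- **The number of labeled self-converse digraphs** of order `p`, for every `p`. -/
theorem result (p : ℕ) :
    (s p : ℤ) = - ∑ H : OddSub p, IncidenceAlgebra.mu ℤ (⊥ : WithBot (OddSub p)) H * 2 ^ orb H := by
  classical
  have h1 : s p = Nat.card {c : Arc p → Bool // ∃ σ : Equiv.Perm (Fin p), (σ, (-1 : ℤˣ)) ∈ stab c} := by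
    unfold s
    exact Nat.card_congr (Equiv.subtypeEquiv (eD p) (fun D => selfConverse_iff D))
  have h2 : ∀ c : Arc p → Bool, (if (∃ σ : Equiv.Perm (Fin p), (σ, (-1 : ℤˣ)) ∈ stab c) then (1 : ℤ)
      else 0) = - ∑ H : OddSub p,
        IncidenceAlgebra.mu ℤ (⊥ : WithBot (OddSub p)) H * (if H.1 ≤ stab c then 1 else 0) := by
    intro c
    simp only [mul_ite, mul_one, mul_zero]
    split_ifs with hc
    · have := sum_mu (⟨stab c, hc⟩ : OddSub p)
      have h3 : ∀ H : OddSub p, (H ≤ (⟨stab c, hc⟩ : OddSub p)) ↔ H.1 ≤ stab c := fun H => Iff.rfl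
      simp only [h3] at this
      rw [this]
      norm_num
    · rw [sum_eq_zero, neg_zero]
      intro H _
      rw [if_neg]
      intro hH
      obtain ⟨σ, hσ⟩ := H.2
      exact hc ⟨σ, hH hσ⟩
  rw [h1, Nat.card_eq_fintype_card, Fintype.card_subtype, Finset.card_filter]
  push_cast
  simp_rw [h2]
  rw [sum_neg_distrib, sum_comm]
  congr 1
  apply sum_congr rfl
  intro H _
  rw [← mul_sum]
  congr 1
  have h4 := card_fixed H
  rw [Nat.card_eq_fintype_card, Fintype.card_subtype, Finset.card_filter] at h4
  have h5 : ((∑ c : Arc p → Bool, if H.1 ≤ stab c then 1 else 0 : ℕ) : ℤ) = ((2 ^ orb H : ℕ) : ℤ) := by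
    rw [h4]
  push_cast at h5
  exact h5

end Pool.Agent.Results.MP_b5e4d4_co.SubgroupFormula
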